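import Pool.Agent.Lib.MP_1e8505_an.Weights

set_option autoImplicit false

open Finset

noncomputable section

namespace Pool.Agent.Lib.MP_1e8505_an

/-- the terms of `⟨W^k x, y⟩` -/
def f (x y : ℤ → ℂ) (k : ℕ) (n : ℤ) : ℂ := x n * y (n + k) * (c n k : ℂ)

/-- weighted coefficients of negative index -/
def A (x : ℤ → ℂ) (R : ℕ) (i : ℕ) : ℂ :=
  x (-(i : ℤ)) * ((s ^ (2 * (R : ℤ) * i - i * (i + 1)) : ℝ) : ℂ)

/-- weighted coefficients of positive index -/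
def B (y : ℤ → ℂ) (R : ℕ) (m : ℕ) : ℂ :=
  y (m : ℤ) * ((s ^ (2 * (R : ℤ) * m - m * (m - 1)) : ℝ) : ℂ)

lemma norm_A (x : ℤ → ℂ) (R i : ℕ) :
    ‖A x R i‖ = ‖x (-(i : ℤ))‖ * s ^ (2 * (R : ℤ) * i - i * (i + 1)) := by
  rw [A, norm_mul, Complex.norm_real, Real.norm_of_nonneg (zpow_nonneg s_pos.le _)]

lemma norm_B (y : ℤ → ℂ) (R m : ℕ) :
    ‖B y R m‖ = ‖y (m : ℤ)‖ * s ^ (2 * (R : ℤ) * m - m * (m - 1)) := by
  rw [B, norm_mul, Complex.norm_real, Real.norm_of_nonneg (zpow_nonneg s_pos.le _)]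

lemma norm_f (x y : ℤ → ℂ) (k : ℕ) (n : ℤ) :
    ‖f x y k n‖ = ‖x n‖ * ‖y (n + k)‖ * c n k := by
  rw [f, norm_mul, norm_mul, Complex.norm_real, Real.norm_of_nonneg (c_pos n k).le]

/-- `A i * B m = f_(i+m)(-i) * 2^(R(i+m))` -/
lemma A_mul_B (x y : ℤ → ℂ) (R i m : ℕ) :
    A x R i * B y R m = f x y (i + m) (-(i : ℤ)) * ((s ^ (2 * (R : ℤ) * (i + m)) : ℝ) : ℂ) := by
  have h1 : (-(i : ℤ)) + ((i + m : ℕ) : ℤ) = (m : ℤ) := by push_cast; ring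
  unfold A B f c
  rw [h1, E_nonneg (by positivity : (0:ℤ) ≤ (m:ℤ)), E_nonpos (by omega : (-(i:ℤ)) ≤ 0)]
  have h2 : s ^ (2 * (R : ℤ) * i - i * (i + 1)) * s ^ (2 * (R : ℤ) * m - m * (m - 1))
      = s ^ (-((m:ℤ) * (m - 1)) - (-(i:ℤ)) * (-(i:ℤ) - 1)) * s ^ (2 * (R : ℤ) * (i + m)) := by
    rw [← zpow_add₀ s_pos.ne', ← zpow_add₀ s_pos.ne']
    congr 1
    ring
  have h3 : ((s ^ (2 * (R : ℤ) * i - i * (i + 1)) : ℝ) : ℂ) *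
      ((s ^ (2 * (R : ℤ) * m - m * (m - 1)) : ℝ) : ℂ)
      = ((s ^ (-((m:ℤ) * (m - 1)) - (-(i:ℤ)) * (-(i:ℤ) - 1)) : ℝ) : ℂ) *
        ((s ^ (2 * (R : ℤ) * (i + m)) : ℝ) : ℂ) := by
    rw [← Complex.ofReal_mul, ← Complex.ofReal_mul, h2]
  calc x (-(i:ℤ)) * ((s ^ (2 * (R : ℤ) * i - i * (i + 1)) : ℝ) : ℂ) *
        (y (m:ℤ) * ((s ^ (2 * (R : ℤ) * m - m * (m - 1)) : ℝ) : ℂ))
      = x (-(i:ℤ)) * y (m:ℤ) * (((s ^ (2 * (R : ℤ) * i - i * (i + 1)) : ℝ) : ℂ) *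
        ((s ^ (2 * (R : ℤ) * m - m * (m - 1)) : ℝ) : ℂ)) := by ring
    _ = _ := by rw [h3]; ring

/-- region III bound -/
lemma bound_pos (x y : ℤ → ℂ) (R : ℕ) (V : ℝ) (hx1 : ∀ n, ‖x n‖ ≤ 1)
    (hV : ∀ m : ℕ, ‖B y R m‖ ≤ V) (k n : ℕ) :
    ‖f x y k n‖ * s ^ (2 * (R : ℤ) * k)
      ≤ (if n < 2 * R + 1 then V else 0) + (‖x n‖ ^ 2 + ‖y ((n:ℤ) + k)‖ ^ 2) / 2 := by
  have hx0 := norm_nonneg (x n)
  have hy0 := norm_nonneg (y ((n:ℤ) + k))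
  rw [norm_f]
  have amgm : ‖x n‖ * ‖y ((n:ℤ) + k)‖ ≤ (‖x n‖ ^ 2 + ‖y ((n:ℤ) + k)‖ ^ 2) / 2 := by
    nlinarith [sq_nonneg (‖x n‖ - ‖y ((n:ℤ) + k)‖)]
  have hnk : (0:ℤ) ≤ (n:ℤ) + k := by positivity
  have hc : c n k * s ^ (2 * (R : ℤ) * k)
      = s ^ (-(((n:ℤ) + k) * ((n:ℤ) + k - 1)) + n * (n - 1) + 2 * R * k) := by
    unfold c
    rw [E_nonneg hnk, E_nonneg (by positivity : (0:ℤ) ≤ (n:ℤ)), ← zpow_add₀ s_pos.ne']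
    congr 1; ring
  split_ifs with h
  · have h1 : s ^ (-(((n:ℤ) + k) * ((n:ℤ) + k - 1)) + n * (n - 1) + 2 * R * k)
        = s ^ (2 * (R : ℤ) * ((n + k : ℕ) : ℤ) - ((n + k : ℕ) : ℤ) * (((n + k : ℕ) : ℤ) - 1))
          * s ^ ((n:ℤ) * (n - 1 - 2 * R)) := by
      rw [← zpow_add₀ s_pos.ne']
      congr 1; push_cast; ring
    have h2 : s ^ ((n:ℤ) * (n - 1 - 2 * R)) ≤ 1 := by
      apply zpow_le_one
      apply mul_nonpos_of_nonneg_of_nonpos (by positivity)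
      omega
    have h3 := hV (n + k)
    rw [norm_B] at h3
    have h4 : ((n + k : ℕ) : ℤ) = (n:ℤ) + k := by push_cast; ring
    have h0 : 0 ≤ s ^ (2 * (R : ℤ) * ((n + k : ℕ) : ℤ) - ((n + k : ℕ) : ℤ) * (((n + k : ℕ) : ℤ) - 1)) :=
      zpow_nonneg s_pos.le _
    have h5 : 0 ≤ ‖y (((n + k : ℕ) : ℤ))‖ := norm_nonneg _
    calc ‖x n‖ * ‖y ((n:ℤ) + k)‖ * c n k * s ^ (2 * (R : ℤ) * k)
        = ‖x n‖ * ‖y ((n:ℤ) + k)‖ * (c n k * s ^ (2 * (R : ℤ) * k)) := by ring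
      _ = ‖x n‖ * (‖y (((n + k : ℕ) : ℤ))‖ *
            s ^ (2 * (R : ℤ) * ((n + k : ℕ) : ℤ) - ((n + k : ℕ) : ℤ) * (((n + k : ℕ) : ℤ) - 1)))
            * s ^ ((n:ℤ) * (n - 1 - 2 * R)) := by rw [hc, h1, h4]; ring
      _ ≤ 1 * V * 1 :=
          mul_le_mul (mul_le_mul (hx1 _) h3 (mul_nonneg h5 h0) zero_le_one) h2
            (zpow_nonneg s_pos.le _) (by linarith [(mul_nonneg h5 h0).trans h3])
      _ = V := by ring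
      _ ≤ V + (‖x n‖ ^ 2 + ‖y ((n:ℤ) + k)‖ ^ 2) / 2 := by
          have : 0 ≤ (‖x n‖ ^ 2 + ‖y ((n:ℤ) + k)‖ ^ 2) / 2 := by positivity
          linarith
  · rw [zero_add]
    have h2 : c n k * s ^ (2 * (R : ℤ) * k) ≤ 1 := by
      rw [hc]
      apply zpow_le_one
      have hn : (2 * R + 1 : ℤ) ≤ n := by omega
      have e : -(((n:ℤ) + k) * ((n:ℤ) + k - 1)) + n * (n - 1) + 2 * R * k
          = -((k:ℤ) * (2 * (n - R) + k - 1)) := by ring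
      rw [e]
      have : 0 ≤ (k:ℤ) * (2 * (n - R) + k - 1) := by
        apply mul_nonneg (by positivity)
        omega
      omega
    have h3 : 0 ≤ c n k * s ^ (2 * (R : ℤ) * k) :=
      mul_nonneg (c_pos _ _).le (zpow_nonneg s_pos.le _)
    calc ‖x n‖ * ‖y ((n:ℤ) + k)‖ * c n k * s ^ (2 * (R : ℤ) * k)
        = (‖x n‖ * ‖y ((n:ℤ) + k)‖) * (c n k * s ^ (2 * (R : ℤ) * k)) := by ring
      _ ≤ (‖x n‖ * ‖y ((n:ℤ) + k)‖) * 1 := by gcongr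
      _ ≤ _ := by rw [mul_one]; exact amgm

/-- region II bound; `I = i + (k - 1) + 1` -/
lemma bound_neg (x y : ℤ → ℂ) (R : ℕ) (U : ℝ) (hy1 : ∀ n, ‖y n‖ ≤ 1)
    (hU : ∀ m : ℕ, ‖A x R m‖ ≤ U) (k i : ℕ) :
    ‖f x y k (-(((i + (k - 1) : ℕ) : ℤ) + 1))‖ * s ^ (2 * (R : ℤ) * k)
      ≤ (if i < 2 * R then U else 0) + (‖x (-(((i + (k - 1) : ℕ) : ℤ) + 1))‖ ^ 2
        + ‖y (-(((i + (k - 1) : ℕ) : ℤ) + 1) + k)‖ ^ 2) / 2 := by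
  set I : ℕ := i + (k - 1) + 1 with hI
  have hn : (-(((i + (k - 1) : ℕ) : ℤ) + 1)) = -(I : ℤ) := by rw [hI]; push_cast; ring
  rw [hn]
  obtain ⟨j, hj⟩ : ∃ j : ℕ, I = k + j := ⟨I - k, by omega⟩
  have hij : i ≤ j := by omega
  have hm : -(I : ℤ) + k = -(j : ℤ) := by rw [hj]; push_cast; ring
  have hx0 := norm_nonneg (x (-(I:ℤ)))
  have hy0 := norm_nonneg (y (-(I : ℤ) + k))
  rw [norm_f]
  have amgm : ‖x (-(I:ℤ))‖ * ‖y (-(I : ℤ) + k)‖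
      ≤ (‖x (-(I:ℤ))‖ ^ 2 + ‖y (-(I : ℤ) + k)‖ ^ 2) / 2 := by
    nlinarith [sq_nonneg (‖x (-(I:ℤ))‖ - ‖y (-(I : ℤ) + k)‖)]
  have hc : c (-(I:ℤ)) k * s ^ (2 * (R : ℤ) * k)
      = s ^ ((j:ℤ) * (j + 1) - I * (I + 1) + 2 * R * k) := by
    unfold c
    rw [hm, E_nonpos (by omega : -(j:ℤ) ≤ 0), E_nonpos (by omega : -(I:ℤ) ≤ 0),
      ← zpow_add₀ s_pos.ne']
    congr 1; ring
  have hcase : (∀ h : j < 2 * R, ‖x (-(I:ℤ))‖ * ‖y (-(I : ℤ) + k)‖ * c (-(I:ℤ)) k *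
        s ^ (2 * (R : ℤ) * k) ≤ U) ∧
      (∀ h : 2 * R ≤ j, ‖x (-(I:ℤ))‖ * ‖y (-(I : ℤ) + k)‖ * c (-(I:ℤ)) k *
        s ^ (2 * (R : ℤ) * k) ≤ (‖x (-(I:ℤ))‖ ^ 2 + ‖y (-(I : ℤ) + k)‖ ^ 2) / 2) := by
    constructor
    · intro h
      have h1 : s ^ ((j:ℤ) * (j + 1) - I * (I + 1) + 2 * R * k)
          = s ^ (2 * (R : ℤ) * I - I * (I + 1)) * s ^ ((j:ℤ) * (j + 1 - 2 * R)) := by
        rw [← zpow_add₀ s_pos.ne']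
        congr 1
        rw [hj]; push_cast; ring
      have h2 : s ^ ((j:ℤ) * (j + 1 - 2 * R)) ≤ 1 := by
        apply zpow_le_one
        apply mul_nonpos_of_nonneg_of_nonpos (by positivity)
        omega
      have h3 := hU I
      rw [norm_A] at h3
      have h0 : 0 ≤ s ^ (2 * (R : ℤ) * I - I * (I + 1)) := zpow_nonneg s_pos.le _
      calc ‖x (-(I:ℤ))‖ * ‖y (-(I : ℤ) + k)‖ * c (-(I:ℤ)) k * s ^ (2 * (R : ℤ) * k)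
          = ‖x (-(I:ℤ))‖ * ‖y (-(I : ℤ) + k)‖ * (c (-(I:ℤ)) k * s ^ (2 * (R : ℤ) * k)) := by ring
        _ = ‖y (-(I : ℤ) + k)‖ * (‖x (-(I:ℤ))‖ * s ^ (2 * (R : ℤ) * I - I * (I + 1)))
              * s ^ ((j:ℤ) * (j + 1 - 2 * R)) := by rw [hc, h1]; ring
        _ ≤ 1 * U * 1 :=
            mul_le_mul (mul_le_mul (hy1 _) h3 (mul_nonneg hx0 h0) zero_le_one) h2
              (zpow_nonneg s_pos.le _) (by linarith [(mul_nonneg hx0 h0).trans h3])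
        _ = U := by ring
    · intro h
      have h2 : c (-(I:ℤ)) k * s ^ (2 * (R : ℤ) * k) ≤ 1 := by
        rw [hc]
        apply zpow_le_one
        have e : (j:ℤ) * (j + 1) - I * (I + 1) + 2 * R * k
            = -((k:ℤ) * (k + 2 * j + 1 - 2 * R)) := by rw [hj]; push_cast; ring
        rw [e]
        have : 0 ≤ (k:ℤ) * (k + 2 * j + 1 - 2 * R) := by
          apply mul_nonneg (by positivity)
          omega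
        omega
      have h3 : 0 ≤ c (-(I:ℤ)) k * s ^ (2 * (R : ℤ) * k) :=
        mul_nonneg (c_pos _ _).le (zpow_nonneg s_pos.le _)
      calc ‖x (-(I:ℤ))‖ * ‖y (-(I : ℤ) + k)‖ * c (-(I:ℤ)) k * s ^ (2 * (R : ℤ) * k)
          = (‖x (-(I:ℤ))‖ * ‖y (-(I : ℤ) + k)‖) * (c (-(I:ℤ)) k * s ^ (2 * (R : ℤ) * k)) := by ring
        _ ≤ (‖x (-(I:ℤ))‖ * ‖y (-(I : ℤ) + k)‖) * 1 := by gcongr
        _ ≤ _ := by rw [mul_one]; exact amgm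
  have hsq : 0 ≤ (‖x (-(I:ℤ))‖ ^ 2 + ‖y (-(I : ℤ) + k)‖ ^ 2) / 2 := by positivity
  have hU0 : 0 ≤ U := (norm_nonneg _).trans (hU 0)
  rcases lt_or_ge j (2 * R) with h | h
  · have h1 : i < 2 * R := lt_of_le_of_lt hij h
    rw [if_pos h1]
    have := hcase.1 h
    linarith
  · have := hcase.2 h
    have h5 : 0 ≤ (if i < 2 * R then U else 0) := by split_ifs <;> simp [hU0]
    linarith

end Pool.Agent.Lib.MP_1e8505_an
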