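import Pool.Agent.Lib.MP_1e8505_an.Bounds

set_option autoImplicit false

open Finset

noncomputable section

namespace Pool.Agent.Lib.MP_1e8505_an

lemma norm_le_one_of {x : ℤ → ℂ} (hx : Summable fun n => ‖x n‖ ^ 2)
    (hx1 : ∑' n, ‖x n‖ ^ 2 ≤ 1) (n : ℤ) : ‖x n‖ ≤ 1 := by
  have h := hx.le_tsum n (fun m _ => by positivity)
  have h2 : ‖x n‖ ^ 2 ≤ 1 := h.trans hx1
  nlinarith [norm_nonneg (x n)]

lemma summable_shift {x : ℤ → ℂ} (hx : Summable fun n => ‖x n‖ ^ 2) (k : ℤ) :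
    Summable fun n => ‖x (n + k)‖ ^ 2 :=
  hx.comp_injective (i := fun n : ℤ => n + k) (fun a b h => by simpa using h)

lemma summable_f {x y : ℤ → ℂ} (hx : Summable fun n => ‖x n‖ ^ 2)
    (hy : Summable fun n => ‖y n‖ ^ 2) (k : ℕ) : Summable (f x y k) := by
  refine Summable.of_norm_bounded (g := fun n => (‖x n‖ ^ 2 + ‖y (n + k)‖ ^ 2) / 2)
    ((hx.add (summable_shift hy k)).div_const 2) fun n => ?_
  rw [norm_f]
  have h1 : ‖x n‖ * ‖y (n + k)‖ * c n k ≤ ‖x n‖ * ‖y (n + k)‖ * 1 := by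
    gcongr
    exact c_le_one _ _
  nlinarith [sq_nonneg (‖x n‖ - ‖y (n + k)‖)]

lemma tsum_inj_le {x : ℤ → ℂ} (hx : Summable fun n => ‖x n‖ ^ 2)
    (hx1 : ∑' n, ‖x n‖ ^ 2 ≤ 1) (i : ℕ → ℤ) (hi : Function.Injective i) :
    ∑' n, ‖x (i n)‖ ^ 2 ≤ 1 :=
  (tsum_comp_le_tsum_of_inj hx (fun _ => by positivity) hi).trans hx1

/-- A sum bound: if `F n ≤ (if n < N then D else 0) + (a n + b n)/2` then `∑ F ≤ N D + 1`. -/
lemma tsum_bound (F a b : ℕ → ℝ) (D : ℝ) (N : ℕ) (hF0 : ∀ n, 0 ≤ F n)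
    (hF : ∀ n, F n ≤ (if n < N then D else 0) + (a n + b n) / 2)
    (ha : Summable a) (hb : Summable b) (ha1 : ∑' n, a n ≤ 1) (hb1 : ∑' n, b n ≤ 1) :
    Summable F ∧ ∑' n, F n ≤ N * D + 1 := by
  have h1 : HasSum (fun n => if n < N then D else 0) (∑ n ∈ range N, D) := by
    have h : HasSum (fun n => if n < N then D else 0)
        (∑ n ∈ range N, (if n < N then D else 0)) :=
      hasSum_sum_of_ne_finset_zero (by
        intro n hn
        rw [mem_range] at hn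
        exact if_neg hn)
    convert h using 1
    apply sum_congr rfl
    intro n hn
    rw [if_pos (mem_range.1 hn)]
  have h2 : HasSum (fun n => (if n < N then D else 0) + (a n + b n) / 2)
      ((∑ n ∈ range N, D) + (∑' n, a n + ∑' n, b n) / 2) :=
    h1.add ((ha.hasSum.add hb.hasSum).div_const 2)
  have hs : Summable F := Summable.of_nonneg_of_le hF0 hF h2.summable
  refine ⟨hs, ?_⟩
  have h3 := hs.tsum_le_tsum hF h2.summable
  rw [h2.tsum_eq] at h3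
  simp only [sum_const, card_range, nsmul_eq_mul] at h3
  linarith

/-- The finite convolution bound. -/
lemma conv_bound {x y : ℤ → ℂ} (hx : Summable fun n => ‖x n‖ ^ 2)
    (hy : Summable fun n => ‖y n‖ ^ 2) (hx1 : ∑' n, ‖x n‖ ^ 2 ≤ 1) (hy1 : ∑' n, ‖y n‖ ^ 2 ≤ 1)
    (R : ℕ) (U V : ℝ) (hU : ∀ m : ℕ, ‖A x R m‖ ≤ U) (hV : ∀ m : ℕ, ‖B y R m‖ ≤ V) (k : ℕ)
    (horth : ∑' n : ℤ, f x y k n = 0) :
    ‖∑ i ∈ range (k - 1), A x R (i + 1) * B y R (k - (i + 1))‖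
      ≤ ((2 * R + 1 : ℕ) * V + 1) + ((2 * R : ℕ) * U + 1) := by
  have hxn := norm_le_one_of hx hx1
  have hyn := norm_le_one_of hy hy1
  set w : ℝ := s ^ (2 * (R : ℤ) * k) with hw
  have hw0 : 0 < w := zpow_pos s_pos _
  have hsum := summable_f hx hy k
  have hs1 : Summable (fun n : ℕ => f x y k (n : ℤ)) := hsum.comp_injective Nat.cast_injective
  have hs2 : Summable (fun n : ℕ => f x y k (-((n : ℤ) + 1))) :=
    hsum.comp_injective (i := fun n : ℕ => (-((n : ℤ) + 1))) (fun a b h => by simpa using h)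
  rw [tsum_of_nat_of_neg_add_one hs1 hs2, ← hs2.sum_add_tsum_nat_add (k - 1)] at horth
  have hfin : ∑ i ∈ range (k - 1), A x R (i + 1) * B y R (k - (i + 1))
      = (∑ i ∈ range (k - 1), f x y k (-((i : ℤ) + 1))) * (w : ℂ) := by
    rw [sum_mul]
    apply sum_congr rfl
    intro i hi
    rw [mem_range] at hi
    have h1 : (i + 1) + (k - (i + 1)) = k := by omega
    rw [A_mul_B, h1]
    have h2 : (((i + 1 : ℕ) : ℤ) + ((k - (i + 1) : ℕ) : ℤ)) = (k : ℤ) := by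
      rw [← h1]; push_cast; omega
    rw [hw, ← h2]
    congr 2
  have hb1 := tsum_bound (fun n : ℕ => ‖f x y k n‖ * w) (fun n : ℕ => ‖x n‖ ^ 2)
    (fun n : ℕ => ‖y ((n:ℤ) + k)‖ ^ 2) V (2 * R + 1) (fun n => by positivity)
    (fun n => bound_pos x y R V hxn hV k n)
    (hx.comp_injective Nat.cast_injective)
    (hy.comp_injective (i := fun n : ℕ => ((n:ℤ) + k)) (fun a b h => by simpa using h))
    (tsum_inj_le hx hx1 _ Nat.cast_injective)
    (tsum_inj_le hy hy1 (fun n : ℕ => ((n:ℤ) + k)) (fun a b h => by simpa using h))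
  have inj1 : Function.Injective (fun n : ℕ => (-(((n + (k - 1) : ℕ) : ℤ) + 1))) := by
    intro a b h
    simp only at h
    omega
  have inj2 : Function.Injective (fun n : ℕ => (-(((n + (k - 1) : ℕ) : ℤ) + 1) + k)) := by
    intro a b h
    simp only at h
    omega
  have hb2 := tsum_bound (fun n : ℕ => ‖f x y k (-(((n + (k - 1) : ℕ) : ℤ) + 1))‖ * w)
    (fun n : ℕ => ‖x (-(((n + (k - 1) : ℕ) : ℤ) + 1))‖ ^ 2)
    (fun n : ℕ => ‖y (-(((n + (k - 1) : ℕ) : ℤ) + 1) + k)‖ ^ 2) U (2 * R) (fun n => by positivity)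
    (fun n => bound_neg x y R U hyn hU k n)
    (hx.comp_injective inj1) (hy.comp_injective inj2)
    (tsum_inj_le hx hx1 _ inj1) (tsum_inj_le hy hy1 _ inj2)
  have e1 : ∑ i ∈ range (k - 1), f x y k (-((i : ℤ) + 1))
      = -(∑' n : ℕ, f x y k n) - ∑' n : ℕ, f x y k (-(((n + (k - 1) : ℕ) : ℤ) + 1)) := by
    linear_combination horth
  have n1 : ‖∑' n : ℕ, f x y k n‖ * w ≤ (2 * R + 1 : ℕ) * V + 1 := by
    have h1 : Summable (fun n : ℕ => ‖f x y k n‖) := by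
      have := hb1.1.mul_right w⁻¹
      refine this.congr fun n => ?_
      field_simp
    have h2 := norm_tsum_le_tsum_norm h1
    calc ‖∑' n : ℕ, f x y k n‖ * w ≤ (∑' n : ℕ, ‖f x y k n‖) * w := by gcongr
      _ = ∑' n : ℕ, ‖f x y k n‖ * w := tsum_mul_right.symm
      _ ≤ _ := hb1.2
  have n2 : ‖∑' n : ℕ, f x y k (-(((n + (k - 1) : ℕ) : ℤ) + 1))‖ * w ≤ (2 * R : ℕ) * U + 1 := by
    have h1 : Summable (fun n : ℕ => ‖f x y k (-(((n + (k - 1) : ℕ) : ℤ) + 1))‖) := by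
      have := hb2.1.mul_right w⁻¹
      refine this.congr fun n => ?_
      field_simp
    have h2 := norm_tsum_le_tsum_norm h1
    calc ‖∑' n : ℕ, f x y k (-(((n + (k - 1) : ℕ) : ℤ) + 1))‖ * w
        ≤ (∑' n : ℕ, ‖f x y k (-(((n + (k - 1) : ℕ) : ℤ) + 1))‖) * w := by gcongr
      _ = ∑' n : ℕ, ‖f x y k (-(((n + (k - 1) : ℕ) : ℤ) + 1))‖ * w := tsum_mul_right.symm
      _ ≤ _ := hb2.2
  rw [hfin, e1, norm_mul, Complex.norm_real, Real.norm_of_nonneg hw0.le]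
  calc ‖-(∑' n : ℕ, f x y k n) - ∑' n : ℕ, f x y k (-(((n + (k - 1) : ℕ) : ℤ) + 1))‖ * w
      ≤ (‖∑' n : ℕ, f x y k n‖ + ‖∑' n : ℕ, f x y k (-(((n + (k - 1) : ℕ) : ℤ) + 1))‖) * w := by
        gcongr
        refine (norm_sub_le _ _).trans ?_
        rw [norm_neg]
    _ = ‖∑' n : ℕ, f x y k n‖ * w + ‖∑' n : ℕ, f x y k (-(((n + (k - 1) : ℕ) : ℤ) + 1))‖ * w := by
        ring
    _ ≤ _ := add_le_add n1 n2

end Pool.Agent.Lib.MP_1e8505_an
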