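import Pool.Agent.Lib.MP_1e8505_an.StepTwo

set_option autoImplicit false

open Finset Filter Topology

noncomputable section

namespace Pool.Agent.Lib.MP_1e8505_an

lemma E_reflect (n : ℤ) : E (1 - n) = -E n := by
  rcases le_or_gt 1 n with h | h
  · rw [E_nonneg (by omega : 0 ≤ n), E_nonpos (by omega : 1 - n ≤ 0)]; ring
  · rw [E_nonpos (by omega : n ≤ 0), E_nonneg (by omega : 0 ≤ 1 - n)]; ring

lemma c_reflect (n : ℤ) (k : ℕ) : c (1 - n - k) k = c n k := by
  unfold c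
  congr 1
  have h1 : (1 - n - (k:ℤ)) + k = 1 - n := by ring
  have h2 : 1 - n - (k:ℤ) = 1 - (n + k) := by ring
  rw [h1, h2, E_reflect, E_reflect]
  ring

lemma summable_reflect {x : ℤ → ℂ} (hx : Summable fun n => ‖x n‖ ^ 2) :
    Summable fun n : ℤ => ‖x (1 - n)‖ ^ 2 :=
  hx.comp_injective (i := fun n : ℤ => 1 - n) (fun a b h => by simpa using h)

lemma tsum_reflect (x : ℤ → ℂ) : ∑' n : ℤ, ‖x (1 - n)‖ ^ 2 = ∑' n, ‖x n‖ ^ 2 :=
  (Equiv.subLeft (1:ℤ)).tsum_eq (fun n => ‖x n‖ ^ 2)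

lemma orth_reflect {x y : ℤ → ℂ} (k : ℕ) :
    ∑' n : ℤ, f (fun n => y (1 - n)) (fun n => x (1 - n)) k n = ∑' n : ℤ, f x y k n := by
  rw [← (Equiv.subLeft (1 - k : ℤ)).tsum_eq (fun n => f x y k n)]
  apply tsum_congr
  intro n
  simp only [Equiv.subLeft_apply, f]
  have h1 : (1 - (k:ℤ) - n) + k = 1 - n := by ring
  have h2 : 1 - (k:ℤ) - n = 1 - n - k := by ring
  have h3 : 1 - (n + (k:ℤ)) = 1 - n - k := by ring
  rw [h1, h2, c_reflect, h3]
  ring

/-- normalised core theorem -/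
lemma core_norm {x y : ℤ → ℂ} (hx : Summable fun n => ‖x n‖ ^ 2)
    (hy : Summable fun n => ‖y n‖ ^ 2) (hx1 : ∑' n, ‖x n‖ ^ 2 ≤ 1) (hy1 : ∑' n, ‖y n‖ ^ 2 ≤ 1)
    (horth : ∀ k : ℕ, ∑' n : ℤ, f x y k n = 0) (n m : ℤ) (hnm : n ≤ m) (hxn : x n ≠ 0) :
    y m = 0 := by
  by_contra hym
  by_cases h1 : ∃ k0 : ℕ, 5 ≤ k0 ∧ x (-(k0:ℤ)) ≠ 0
  · obtain ⟨k0, hk5, hk⟩ := h1
    by_cases h2 : ∃ m0 : ℕ, 5 ≤ m0 ∧ y (m0:ℤ) ≠ 0
    · obtain ⟨m0, hm5, hm⟩ := h2
      exact step_one hx hy hx1 hy1 horth k0 m0 hk5 hm5 hk hm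
    · push Not at h2
      -- reflect
      set x' : ℤ → ℂ := fun n => y (1 - n) with hx'
      set y' : ℤ → ℂ := fun n => x (1 - n) with hy'
      have horth' : ∀ k : ℕ, ∑' n : ℤ, f x' y' k n = 0 := fun k => by
        rw [hx', hy', orth_reflect, horth]
      have hlow : ∀ n : ℤ, n ≤ -4 → x' n = 0 := by
        intro n hn
        have h3 := h2 (1 - n).toNat (by omega)
        have h4 : (((1 - n).toNat : ℕ) : ℤ) = 1 - n := by omega
        rw [h4] at h3
        exact h3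
      have hne : x' (1 - m) ≠ 0 := by
        simp only [hx']
        rw [sub_sub_cancel]; exact hym
      obtain ⟨n0, hn0, hmin⟩ : ∃ n0 : ℤ, x' n0 ≠ 0 ∧ ∀ z : ℤ, x' z ≠ 0 → n0 ≤ z := by
        apply Int.exists_least_of_bdd
        · refine ⟨-4, fun z hz => ?_⟩
          by_contra hcon
          exact hz (hlow z (by omega))
        · exact ⟨1 - m, hne⟩
      have h5 := donoghue (summable_reflect hy) (summable_reflect hx)
        ((tsum_reflect y).trans_le hy1) horth' n0 hn0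
        (fun n hn => by
          by_contra hcon
          have := hmin n hcon
          omega) (1 - n) (by
            have := hmin _ hne
            omega)
      rw [sub_sub_cancel] at h5
      exact hxn h5
  · push Not at h1
    obtain ⟨n0, hn0, hmin⟩ : ∃ n0 : ℤ, x n0 ≠ 0 ∧ ∀ z : ℤ, x z ≠ 0 → n0 ≤ z := by
      apply Int.exists_least_of_bdd
      · refine ⟨-4, fun z hz => ?_⟩
        by_contra hcon
        apply hz
        have h3 := h1 (-z).toNat (by omega)
        have h4 : -(((-z).toNat : ℕ) : ℤ) = z := by omega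
        rwa [h4] at h3
      · exact ⟨n, hxn⟩
    exact hym (donoghue hx hy hx1 horth n0 hn0
      (fun n hn => by
        by_contra hcon
        have := hmin n hcon
        omega) m (by have := hmin n hxn; omega))

/-- core theorem: if all moments `⟨W^k x, y⟩` vanish then for `n ≤ m` either `x n = 0`
or `y m = 0`. -/
theorem core {x y : ℤ → ℂ} (hx : Summable fun n => ‖x n‖ ^ 2)
    (hy : Summable fun n => ‖y n‖ ^ 2)
    (horth : ∀ k : ℕ, ∑' n : ℤ, f x y k n = 0) (n m : ℤ) (hnm : n ≤ m) (hxn : x n ≠ 0) :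
    y m = 0 := by
  -- scaling
  have hscale : ∀ z : ℤ → ℂ, Summable (fun n => ‖z n‖ ^ 2) →
      ∃ a : ℂ, a ≠ 0 ∧ (Summable fun n => ‖a * z n‖ ^ 2) ∧ ∑' n, ‖a * z n‖ ^ 2 ≤ 1 := by
    intro z hz
    set S := ∑' n, ‖z n‖ ^ 2 with hS
    have hS0 : 0 ≤ S := tsum_nonneg fun n => by positivity
    refine ⟨(((1 + S)⁻¹ : ℝ) : ℂ), by
      rw [Ne, Complex.ofReal_eq_zero]; positivity, ?_, ?_⟩
    · have : (fun n => ‖(((1 + S)⁻¹ : ℝ) : ℂ) * z n‖ ^ 2)
          = fun n => ((1 + S)⁻¹) ^ 2 * ‖z n‖ ^ 2 := by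
        ext n
        rw [norm_mul, Complex.norm_real, Real.norm_of_nonneg (by positivity), mul_pow]
      rw [this]
      exact hz.mul_left _
    · have : (fun n => ‖(((1 + S)⁻¹ : ℝ) : ℂ) * z n‖ ^ 2)
          = fun n => ((1 + S)⁻¹) ^ 2 * ‖z n‖ ^ 2 := by
        ext n
        rw [norm_mul, Complex.norm_real, Real.norm_of_nonneg (by positivity), mul_pow]
      rw [this, tsum_mul_left, ← hS, inv_pow, inv_mul_le_iff₀ (by positivity)]
      nlinarith
  obtain ⟨a, ha, hax, hax1⟩ := hscale x hx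
  obtain ⟨b, hb, hby, hby1⟩ := hscale y hy
  have h1 := core_norm (x := fun n => a * x n) (y := fun n => b * y n) hax hby hax1 hby1
    (fun k => by
      have : (fun n : ℤ => f (fun n => a * x n) (fun n => b * y n) k n)
          = fun n => (a * b) * f x y k n := by
        ext n
        simp only [f]; ring
      rw [this, tsum_mul_left, horth k, mul_zero]) n m hnm (mul_ne_zero ha hxn)
  exact (mul_eq_zero.1 h1).resolve_left hb

end Pool.Agent.Lib.MP_1e8505_an
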