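import Mathlib

set_option autoImplicit false

open Finset Polynomial

noncomputable section

namespace Pool.Agent.Lib.MP_1e8505_an

/-- the polynomial `∑_{1 ≤ i ≤ K} a i X^i` -/
def poly (a : ℕ → ℂ) (K : ℕ) : ℂ[X] := ∑ i ∈ range K, monomial (i + 1) (a (i + 1))

lemma coeff_poly (a : ℕ → ℂ) (K n : ℕ) :
    (poly a K).coeff n = if 1 ≤ n ∧ n ≤ K then a n else 0 := by
  unfold poly
  rw [finsetSum_coeff]
  simp only [coeff_monomial]
  split_ifs with h
  · rw [sum_eq_single (n - 1)]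
    · have : n - 1 + 1 = n := by omega
      rw [this, if_pos rfl]
    · intro b _ hb
      rw [if_neg]
      omega
    · intro hn
      rw [mem_range] at hn
      omega
  · apply sum_eq_zero
    intro i hi
    rw [mem_range] at hi
    rw [if_neg]
    intro h1
    apply h
    omega

lemma natDegree_poly (a : ℕ → ℂ) (K : ℕ) : (poly a K).natDegree ≤ K := by
  rw [natDegree_le_iff_coeff_eq_zero]
  intro n hn
  rw [coeff_poly, if_neg (by omega)]

lemma coeff_mul_poly (a b : ℕ → ℂ) (K k : ℕ) :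
    (poly a K * poly b K).coeff k
      = ∑ i ∈ range (k - 1), (poly a K).coeff (i + 1) * (poly b K).coeff (k - (i + 1)) := by
  rw [coeff_mul, Finset.Nat.sum_antidiagonal_eq_sum_range_succ_mk]
  have h0 : (poly a K).coeff 0 = 0 := by rw [coeff_poly, if_neg (by omega)]
  have h0' : (poly b K).coeff 0 = 0 := by rw [coeff_poly, if_neg (by omega)]
  rcases k with _ | k
  · simp [h0]
  · rw [sum_range_succ, sum_range_succ']
    simp [h0, h0']

lemma coeff_mul_bound (a b : ℕ → ℂ) (K k : ℕ) (U V T : ℝ) (hU1 : 1 ≤ U) (hV1 : 1 ≤ V)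
    (hU : ∀ m, ‖a m‖ ≤ U) (hV : ∀ m, ‖b m‖ ≤ V)
    (ha : ∀ m, K < m → ‖a m‖ ≤ 1) (hb : ∀ m, K < m → ‖b m‖ ≤ 1)
    (hT : ‖∑ i ∈ range (k - 1), a (i + 1) * b (k - (i + 1))‖ ≤ T) (hT0 : 0 ≤ T) :
    ‖(poly a K * poly b K).coeff k‖ ≤ T + 2 * K * (U + V) := by
  rcases le_or_gt k (2 * K) with hk | hk
  · rw [coeff_mul_poly]
    have h1 : ∑ i ∈ range (k - 1), (poly a K).coeff (i + 1) * (poly b K).coeff (k - (i + 1))
        = ∑ i ∈ range (k - 1), a (i + 1) * b (k - (i + 1))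
          + ∑ i ∈ range (k - 1), ((poly a K).coeff (i + 1) * (poly b K).coeff (k - (i + 1))
            - a (i + 1) * b (k - (i + 1))) := by
      rw [← sum_add_distrib]
      apply sum_congr rfl
      intro i _
      ring
    have h2 : ‖∑ i ∈ range (k - 1), ((poly a K).coeff (i + 1) * (poly b K).coeff (k - (i + 1))
            - a (i + 1) * b (k - (i + 1)))‖ ≤ ∑ i ∈ range (k - 1), (U + V) := by
      apply norm_sum_le_of_le
      intro i hi
      rw [mem_range] at hi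
      rw [coeff_poly, coeff_poly]
      by_cases h3 : i + 1 ≤ K
      · by_cases h4 : k - (i + 1) ≤ K
        · rw [if_pos ⟨by omega, h3⟩, if_pos ⟨by omega, h4⟩, sub_self, norm_zero]
          linarith
        · have h5 : ‖b (k - (i + 1))‖ ≤ 1 := hb _ (by omega)
          rw [if_neg (show ¬ (1 ≤ k - (i + 1) ∧ k - (i + 1) ≤ K) by omega), mul_zero, zero_sub,
            norm_neg, norm_mul]
          have := mul_le_mul (hU (i + 1)) h5 (norm_nonneg _) (by linarith)
          linarith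
      · have h5 : ‖a (i + 1)‖ ≤ 1 := ha _ (by omega)
        rw [if_neg (show ¬ (1 ≤ i + 1 ∧ i + 1 ≤ K) by omega), zero_mul, zero_sub,
          norm_neg, norm_mul]
        have := mul_le_mul h5 (hV (k - (i + 1))) (norm_nonneg _) zero_le_one
        linarith
    rw [h1]
    refine (norm_add_le _ _).trans ?_
    rw [sum_const, card_range, nsmul_eq_mul] at h2
    have h6 : (((k - 1 : ℕ) : ℝ)) * (U + V) ≤ 2 * K * (U + V) := by
      have : ((k - 1 : ℕ) : ℝ) ≤ 2 * K := by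
        have h7 : k - 1 ≤ 2 * K := by omega
        exact_mod_cast h7
      exact mul_le_mul_of_nonneg_right this (by linarith)
    linarith
  · rw [coeff_eq_zero_of_natDegree_lt]
    · rw [norm_zero]
      have : 0 ≤ 2 * (K:ℝ) * (U + V) := by
        apply mul_nonneg (by positivity) (by linarith)
      linarith
    · refine lt_of_le_of_lt natDegree_mul_le ?_
      have h1 := natDegree_poly a K
      have h2 := natDegree_poly b K
      omega

lemma mahler_le (p : ℂ[X]) (N : ℕ) (hN : p.natDegree < N) (T : ℝ) (hT : ∀ k, ‖p.coeff k‖ ≤ T) :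
    p.mahlerMeasure ≤ N * T := by
  refine (mahlerMeasure_le_sum_norm_coeff p).trans ?_
  rw [sum_over_range' p (fun _ => norm_zero) N hN]
  calc ∑ a ∈ range N, ‖p.coeff a‖ ≤ ∑ a ∈ range N, T := sum_le_sum fun i _ => hT i
    _ = N * T := by simp

lemma norm_coeff_le_mahler (p : ℂ[X]) (K n : ℕ) (hK : p.natDegree ≤ K) :
    ‖p.coeff n‖ ≤ 2 ^ K * p.mahlerMeasure := by
  refine (norm_coeff_le_choose_mul_mahlerMeasure n p).trans ?_
  gcongr
  · exact mahlerMeasure_nonneg p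
  · have h1 : (p.natDegree).choose n ≤ 2 ^ p.natDegree := Nat.choose_le_two_pow _ _
    have h2 : 2 ^ p.natDegree ≤ 2 ^ K := Nat.pow_le_pow_right (by norm_num) hK
    exact_mod_cast h1.trans h2

/-- The Gelfond-Mahler type inequality we need. -/
lemma gelfond (a b : ℕ → ℂ) (K : ℕ) (U V T : ℝ) (hU1 : 1 ≤ U) (hV1 : 1 ≤ V)
    (hU : ∀ m, ‖a m‖ ≤ U) (hV : ∀ m, ‖b m‖ ≤ V)
    (ha : ∀ m, K < m → ‖a m‖ ≤ 1) (hb : ∀ m, K < m → ‖b m‖ ≤ 1) (hT0 : 0 ≤ T)
    (hT : ∀ k, ‖∑ i ∈ range (k - 1), a (i + 1) * b (k - (i + 1))‖ ≤ T)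
    (n m : ℕ) (hn : 1 ≤ n ∧ n ≤ K) (hm : 1 ≤ m ∧ m ≤ K) :
    ‖a n‖ * ‖b m‖ ≤ 4 ^ K * ((2 * K + 1) * (T + 2 * K * (U + V))) := by
  have h1 : ‖a n‖ ≤ 2 ^ K * (poly a K).mahlerMeasure := by
    have := norm_coeff_le_mahler (poly a K) K n (natDegree_poly a K)
    rwa [coeff_poly, if_pos hn] at this
  have h2 : ‖b m‖ ≤ 2 ^ K * (poly b K).mahlerMeasure := by
    have := norm_coeff_le_mahler (poly b K) K m (natDegree_poly b K)
    rwa [coeff_poly, if_pos hm] at this
  have h3 : (poly a K * poly b K).mahlerMeasure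
      ≤ ((2 * K + 1 : ℕ) : ℝ) * (T + 2 * K * (U + V)) := by
    apply mahler_le
    · refine lt_of_le_of_lt natDegree_mul_le ?_
      have h1 := natDegree_poly a K
      have h2 := natDegree_poly b K
      omega
    · intro k
      exact coeff_mul_bound a b K k U V T hU1 hV1 hU hV ha hb (hT k) hT0
  have h4 : ‖a n‖ * ‖b m‖ ≤ (2 ^ K * (poly a K).mahlerMeasure) * (2 ^ K * (poly b K).mahlerMeasure) :=
    mul_le_mul h1 h2 (norm_nonneg _) ((norm_nonneg _).trans h1)
  have h5 : (2 ^ K * (poly a K).mahlerMeasure) * (2 ^ K * (poly b K).mahlerMeasure)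
      = 4 ^ K * (poly a K * poly b K).mahlerMeasure := by
    rw [mahlerMeasure_mul]
    have : (4:ℝ) ^ K = 2 ^ K * 2 ^ K := by rw [← mul_pow]; norm_num
    rw [this]; ring
  rw [h5] at h4
  refine h4.trans ?_
  have h6 : ((2 * K + 1 : ℕ) : ℝ) = 2 * K + 1 := by push_cast; ring
  rw [h6] at h3
  gcongr

end Pool.Agent.Lib.MP_1e8505_an
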