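import Pool.Agent.Lib.MP_1e8505_an.Conv
import Pool.Agent.Lib.MP_1e8505_an.Mahler

set_option autoImplicit false

open Finset Filter Topology

noncomputable section

namespace Pool.Agent.Lib.MP_1e8505_an

lemma norm_A_le_one {x : ℤ → ℂ} (hx : ∀ n, ‖x n‖ ≤ 1) (R m : ℕ) (hm : 2 * R + 1 < m) :
    ‖A x R m‖ ≤ 1 := by
  rw [norm_A]
  have h1 : s ^ (2 * (R : ℤ) * m - m * (m + 1)) ≤ 1 := by
    apply zpow_le_one
    have : 2 * (R : ℤ) * m - m * (m + 1) = (m:ℤ) * (2 * R - m - 1) := by ring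
    rw [this]
    apply mul_nonpos_of_nonneg_of_nonpos (by positivity)
    omega
  calc ‖x (-(m:ℤ))‖ * s ^ (2 * (R : ℤ) * m - m * (m + 1)) ≤ 1 * 1 :=
        mul_le_mul (hx _) h1 (zpow_nonneg s_pos.le _) zero_le_one
    _ = 1 := by norm_num

lemma norm_B_le_one {y : ℤ → ℂ} (hy : ∀ n, ‖y n‖ ≤ 1) (R m : ℕ) (hm : 2 * R + 1 < m) :
    ‖B y R m‖ ≤ 1 := by
  rw [norm_B]
  have h1 : s ^ (2 * (R : ℤ) * m - m * (m - 1)) ≤ 1 := by
    apply zpow_le_one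
    have : 2 * (R : ℤ) * m - m * (m - 1) = (m:ℤ) * (2 * R + 1 - m) := by ring
    rw [this]
    apply mul_nonpos_of_nonneg_of_nonpos (by positivity)
    omega
  calc ‖y (m:ℤ)‖ * s ^ (2 * (R : ℤ) * m - m * (m - 1)) ≤ 1 * 1 :=
        mul_le_mul (hy _) h1 (zpow_nonneg s_pos.le _) zero_le_one
    _ = 1 := by norm_num

lemma A_zero (x : ℤ → ℂ) (R : ℕ) : A x R 0 = x 0 := by simp [A]

lemma B_zero (y : ℤ → ℂ) (R : ℕ) : B y R 0 = y 0 := by simp [B]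

/-- the sup over all indices is attained in `[1, K]` as soon as it exceeds `1` -/
lemma exists_max (a : ℕ → ℂ) (K : ℕ) (h0 : ‖a 0‖ ≤ 1) (ha : ∀ m, K < m → ‖a m‖ ≤ 1)
    (k0 : ℕ) (hk : 1 < ‖a k0‖) :
    ∃ i, (1 ≤ i ∧ i ≤ K) ∧ 1 < ‖a i‖ ∧ ∀ m, ‖a m‖ ≤ ‖a i‖ := by
  obtain ⟨i, hi, hmax⟩ := exists_max_image (range (K + 1)) (fun m => ‖a m‖) ⟨0, by simp⟩
  have hk0 : k0 ∈ range (K + 1) := by
    rw [mem_range]
    by_contra h
    have := ha k0 (by omega)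
    linarith
  have h1 : 1 < ‖a i‖ := lt_of_lt_of_le hk (hmax k0 hk0)
  rw [mem_range] at hi
  refine ⟨i, ⟨?_, by omega⟩, h1, fun m => ?_⟩
  · rcases Nat.eq_zero_or_pos i with h | h
    · rw [h] at h1; linarith
    · exact h
  · rcases le_or_gt m K with h | h
    · exact hmax m (by rw [mem_range]; omega)
    · exact (ha m h).trans h1.le

lemma key_ineq {x y : ℤ → ℂ} (hx : Summable fun n => ‖x n‖ ^ 2)
    (hy : Summable fun n => ‖y n‖ ^ 2) (hx1 : ∑' n, ‖x n‖ ^ 2 ≤ 1) (hy1 : ∑' n, ‖y n‖ ^ 2 ≤ 1)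
    (horth : ∀ k : ℕ, ∑' n : ℤ, f x y k n = 0) (R k0 m0 : ℕ)
    (hk : 1 < ‖A x R k0‖) (hm : 1 < ‖B y R m0‖) :
    min ‖A x R k0‖ ‖B y R m0‖ ≤ 32 * 16 ^ R * ((2 * R + 1) * (4 * R + 3)) := by
  have hxn := norm_le_one_of hx hx1
  have hyn := norm_le_one_of hy hy1
  set K : ℕ := 2 * R + 1 with hK
  obtain ⟨i0, hi0, hU1, hU⟩ := exists_max (A x R) K (by rw [A_zero]; exact hxn 0)
    (fun m hm => norm_A_le_one hxn R m hm) k0 hk
  obtain ⟨j0, hj0, hV1, hV⟩ := exists_max (B y R) K (by rw [B_zero]; exact hyn 0)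
    (fun m hm => norm_B_le_one hyn R m hm) m0 hm
  set U := ‖A x R i0‖ with hUdef
  set V := ‖B y R j0‖ with hVdef
  have hT : ∀ k, ‖∑ i ∈ range (k - 1), A x R (i + 1) * B y R (k - (i + 1))‖
      ≤ ((2 * R + 1 : ℕ) * V + 1) + ((2 * R : ℕ) * U + 1) :=
    fun k => conv_bound hx hy hx1 hy1 R U V hU hV k (horth k)
  have hg := gelfond (A x R) (B y R) K U V _ hU1.le hV1.le hU hV
    (fun m hm => norm_A_le_one hxn R m hm) (fun m hm => norm_B_le_one hyn R m hm)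
    (by positivity) hT i0 j0 hi0 hj0
  rw [← hUdef, ← hVdef] at hg
  have hKr : (K : ℝ) = 2 * R + 1 := by rw [hK]; push_cast; ring
  have h4 : (4:ℝ) ^ K = 4 * 16 ^ R := by
    rw [hK, pow_succ, pow_mul]; norm_num; ring
  have hR0 : (0:ℝ) ≤ R := by positivity
  have h5 : (((2 * R + 1 : ℕ) : ℝ) * V + 1) + (((2 * R : ℕ) : ℝ) * U + 1) + 2 * K * (U + V)
      ≤ 4 * (2 * R + 1) * (U + V) := by
    rw [hKr]; push_cast
    nlinarith
  have h6 : U * V ≤ (4 * 16 ^ R) * ((4 * R + 3) * (4 * (2 * R + 1) * (U + V))) := by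
    refine hg.trans ?_
    rw [h4]
    have h7 : (2 * (K:ℝ) + 1) = 4 * R + 3 := by rw [hKr]; ring
    rw [h7]
    gcongr
  set D : ℝ := 16 * 16 ^ R * ((2 * R + 1) * (4 * R + 3)) with hD
  have h8 : U * V ≤ D * (U + V) := by
    refine h6.trans (le_of_eq ?_)
    rw [hD]; ring
  have hD0 : 0 ≤ D := by positivity
  have h9 : min U V ≤ 2 * D := by
    rcases le_total U V with h | h
    · rw [min_eq_left h]
      have : U * V ≤ (2 * D) * V := by nlinarith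
      exact le_of_mul_le_mul_right this (by linarith)
    · rw [min_eq_right h]
      have : V * U ≤ (2 * D) * U := by nlinarith
      exact le_of_mul_le_mul_right this (by linarith)
  calc min ‖A x R k0‖ ‖B y R m0‖ ≤ min U V := min_le_min (hU k0) (hV m0)
    _ ≤ 2 * D := h9
    _ = _ := by rw [hD]; ring

lemma growth_lower {e : ℤ} {v : ℝ} (hv : 0 < v) (R k0 : ℕ) (hk : 5 ≤ k0) :
    v * s ^ (-e) * 32 ^ R ≤ v * s ^ (2 * (R : ℤ) * k0 - e) := by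
  have h1 : (32 : ℝ) ^ R = s ^ (10 * (R : ℤ)) := by
    have : (32 : ℝ) = s ^ (10 : ℕ) := by
      have : s ^ 10 = (s ^ 2) ^ 5 := by ring
      rw [this, s_sq]; norm_num
    rw [this, ← pow_mul, ← zpow_natCast]
    congr 1
  rw [h1, mul_assoc, ← zpow_add₀ s_pos.ne']
  gcongr
  · exact one_le_s
  · have : (10:ℤ) * R ≤ 2 * R * k0 := by
      have h5 : (5:ℤ) ≤ k0 := by exact_mod_cast hk
      nlinarith
    linarith

/-- Step one: `x` and `y` cannot both be supported far out. -/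
lemma step_one {x y : ℤ → ℂ} (hx : Summable fun n => ‖x n‖ ^ 2)
    (hy : Summable fun n => ‖y n‖ ^ 2) (hx1 : ∑' n, ‖x n‖ ^ 2 ≤ 1) (hy1 : ∑' n, ‖y n‖ ^ 2 ≤ 1)
    (horth : ∀ k : ℕ, ∑' n : ℤ, f x y k n = 0) (k0 m0 : ℕ) (hk5 : 5 ≤ k0) (hm5 : 5 ≤ m0)
    (hk : x (-(k0 : ℤ)) ≠ 0) (hm : y (m0 : ℤ) ≠ 0) : False := by
  set cx : ℝ := ‖x (-(k0 : ℤ))‖ * s ^ (-((k0 : ℤ) * (k0 + 1))) with hcx
  set cy : ℝ := ‖y (m0 : ℤ)‖ * s ^ (-((m0 : ℤ) * (m0 - 1))) with hcy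
  have hcx0 : 0 < cx := mul_pos (norm_pos_iff.2 hk) (zpow_pos s_pos _)
  have hcy0 : 0 < cy := mul_pos (norm_pos_iff.2 hm) (zpow_pos s_pos _)
  set c0 : ℝ := min cx cy with hc0
  have hc00 : 0 < c0 := lt_min hcx0 hcy0
  have hAl : ∀ R : ℕ, c0 * 32 ^ R ≤ ‖A x R k0‖ := by
    intro R
    rw [norm_A]
    refine le_trans ?_ (growth_lower (norm_pos_iff.2 hk) R k0 hk5)
    gcongr
    exact min_le_left _ _
  have hBl : ∀ R : ℕ, c0 * 32 ^ R ≤ ‖B y R m0‖ := by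
    intro R
    rw [norm_B]
    refine le_trans ?_ (growth_lower (norm_pos_iff.2 hm) R m0 hm5)
    gcongr
    exact min_le_right _ _
  -- largeness
  have ev1 : ∀ᶠ R : ℕ in atTop, 1 < c0 * 32 ^ R := by
    have : Tendsto (fun R : ℕ => c0 * (32:ℝ) ^ R) atTop atTop :=
      Tendsto.const_mul_atTop hc00 (tendsto_pow_atTop_atTop_of_one_lt (by norm_num))
    exact this.eventually_gt_atTop 1
  have ev2 : ∀ᶠ R : ℕ in atTop, 32 * ((2 * (R:ℝ) + 1) * (4 * R + 3)) < c0 * 2 ^ R := by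
    have h1 : Tendsto (fun R : ℕ => (R:ℝ) ^ 2 / 2 ^ R) atTop (𝓝 0) :=
      tendsto_pow_const_div_const_pow_of_one_lt 2 (by norm_num)
    have h2 : ∀ᶠ R : ℕ in atTop, (R:ℝ) ^ 2 / 2 ^ R < c0 / (32 * 21 + 1) :=
      (tendsto_order.1 h1).2 _ (by positivity)
    filter_upwards [h2, eventually_ge_atTop 1] with R hR hR1
    have hR1' : (1:ℝ) ≤ R := by exact_mod_cast hR1
    rw [div_lt_div_iff₀ (by positivity) (by norm_num)] at hR
    nlinarith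
  obtain ⟨R, hR1, hR2⟩ := (ev1.and ev2).exists
  have h3 := key_ineq hx hy hx1 hy1 horth R k0 m0 (lt_of_lt_of_le hR1 (hAl R))
    (lt_of_lt_of_le hR1 (hBl R))
  have h4 : c0 * 32 ^ R ≤ 32 * 16 ^ R * ((2 * R + 1) * (4 * R + 3)) :=
    (le_min (hAl R) (hBl R)).trans h3
  have h5 : (32:ℝ) ^ R = 2 ^ R * 16 ^ R := by rw [← mul_pow]; norm_num
  rw [h5] at h4
  have h6 : (0:ℝ) < 16 ^ R := by positivity
  have h7 : (c0 * 2 ^ R) * 16 ^ R ≤ (32 * ((2 * R + 1) * (4 * R + 3))) * 16 ^ R := by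
    calc (c0 * 2 ^ R) * 16 ^ R = c0 * (2 ^ R * 16 ^ R) := by ring
      _ ≤ _ := h4
      _ = _ := by ring
  have h8 := le_of_mul_le_mul_right h7 h6
  linarith

end Pool.Agent.Lib.MP_1e8505_an
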