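import Pool.Agent.Lib.MP_1e8505_an.StepOne

set_option autoImplicit false

open Finset Filter Topology

noncomputable section

namespace Pool.Agent.Lib.MP_1e8505_an

lemma E_add_of_nonneg {n : ℤ} (hn : 0 ≤ n) (j : ℕ) :
    E (n + j) = E n - (2 * j * n + j * (j - 1)) := by
  rw [E_nonneg hn, E_nonneg (by positivity)]
  ring

lemma E_sub_le (n : ℤ) (j : ℕ) : E n - E (n + j) ≤ 2 * j * |n| + j * (j - 1) := by
  induction j with
  | zero => simp
  | succ j ih =>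
    have h : n + ((j + 1 : ℕ) : ℤ) = (n + j) + 1 := by push_cast; ring
    rw [h, E_succ]
    have h2 : |n + (j:ℤ)| ≤ |n| + j := by
      refine (abs_add_le _ _).trans ?_
      rw [abs_of_nonneg (by positivity : (0:ℤ) ≤ (j:ℤ))]
    push_cast
    nlinarith

/-- comparison of the weights -/
lemma c_ratio (n0 : ℤ) (j k : ℕ) (hk : 2 * |n0| + 1 ≤ (k : ℤ)) (hj : 1 ≤ j) :
    c (n0 + j) k ≤ c n0 k * (s ^ (-(2 * (k - 2 * |n0| - 1))) * (1 / 2) ^ j) := by
  have h12 : (1 / 2 : ℝ) ^ j = s ^ (-(2 * (j : ℤ))) := by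
    rw [zpow_neg, zpow_mul]
    have : s ^ (2:ℤ) = 2 := by exact_mod_cast s_sq
    rw [this]
    simp
  rw [h12]
  unfold c
  rw [← zpow_add₀ s_pos.ne', ← zpow_add₀ s_pos.ne']
  apply zpow_le_zpow_right₀ one_le_s
  have habs : -|n0| ≤ n0 := neg_abs_le n0
  have h0 : 0 ≤ n0 + k := by have := abs_nonneg n0; linarith
  have e1 : n0 + (j:ℤ) + k = (n0 + k) + j := by ring
  rw [e1, E_add_of_nonneg h0 j]
  have h2 := E_sub_le n0 j
  have hj' : (1:ℤ) ≤ j := by exact_mod_cast hj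
  have hq : 0 ≤ (k:ℤ) - 2 * |n0| - 1 := by linarith
  nlinarith [mul_nonneg (sub_nonneg.2 hj') hq, mul_nonneg (sub_nonneg.2 hj') (abs_nonneg n0)]

lemma hasSum_geom (n0 : ℤ) (C : ℝ) :
    HasSum (fun n : ℤ => if n0 < n then C * (1 / 2 : ℝ) ^ (n - n0).toNat else 0) C := by
  have hinj : Function.Injective (fun j : ℕ => n0 + 1 + (j : ℤ)) := by
    intro a b h
    simpa using h
  have h1 : HasSum (fun j : ℕ => C * (1 / 2 : ℝ) ^ (j + 1)) C := by
    have h2 : HasSum (fun j : ℕ => (1 / 2 : ℝ) ^ j) 2 := hasSum_geometric_two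
    have h3 := h2.mul_left (C / 2)
    have h4 : C / 2 * 2 = C := by ring
    rw [h4] at h3
    refine h3.congr_fun ?_ |> fun h => h
    intro j
    rw [pow_succ]; ring
  refine (hinj.hasSum_iff ?_).1 ?_
  · intro n hn
    rw [if_neg]
    intro h
    apply hn
    exact ⟨(n - n0 - 1).toNat, by simp only; omega⟩
  · convert h1 using 1
    ext j
    simp only [Function.comp]
    rw [if_pos (by omega)]
    congr 2
    omega

/-- Donoghue's theorem in the form we need. -/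
lemma donoghue {x y : ℤ → ℂ} (hx : Summable fun n => ‖x n‖ ^ 2)
    (hy : Summable fun n => ‖y n‖ ^ 2) (hx1 : ∑' n, ‖x n‖ ^ 2 ≤ 1)
    (horth : ∀ k : ℕ, ∑' n : ℤ, f x y k n = 0) (n0 : ℤ) (hn0 : x n0 ≠ 0)
    (hlow : ∀ n < n0, x n = 0) (m : ℤ) (hm : n0 ≤ m) : y m = 0 := by
  have hxn := norm_le_one_of hx hx1
  -- key step: an index which dominates all later ones leads to a contradiction
  have dom : ∀ k : ℕ, (∀ m : ℤ, n0 + k < m → ‖y m‖ ≤ ‖y (n0 + k)‖) →
      (2 * |n0| + 1 ≤ (k:ℤ) ∧ s ^ (-(2 * ((k:ℤ) - 2 * |n0| - 1))) < ‖x n0‖ ∨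
        ∀ m : ℤ, n0 + k < m → y m = 0) → y (n0 + k) = 0 := by
    intro k hdom hcase
    have h0 := horth k
    have hs := summable_f hx hy k
    rw [hs.tsum_eq_add_tsum_ite n0] at h0
    by_contra hne
    have hyk : 0 < ‖y (n0 + k)‖ := norm_pos_iff.2 hne
    have hfn0 : ‖f x y k n0‖ = ‖x n0‖ * ‖y (n0 + k)‖ * c n0 k := norm_f _ _ _ _
    have hpos : 0 < ‖f x y k n0‖ := by
      rw [hfn0]
      exact mul_pos (mul_pos (norm_pos_iff.2 hn0) hyk) (c_pos _ _)
    rcases hcase with ⟨hk, hsmall⟩ | hzero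
    · set C : ℝ := ‖y (n0 + k)‖ * c n0 k * s ^ (-(2 * ((k:ℤ) - 2 * |n0| - 1))) with hC
      have hbd : ∀ n : ℤ, ‖(if n = n0 then 0 else f x y k n)‖
          ≤ (if n0 < n then C * (1 / 2 : ℝ) ^ (n - n0).toNat else 0) := by
        intro n
        rcases lt_trichotomy n n0 with h | h | h
        · rw [if_neg h.ne, if_neg (by omega)]
          simp [f, hlow n h]
        · rw [if_pos h, if_neg (by omega)]; simp
        · rw [if_neg h.ne', if_pos h, norm_f]
          obtain ⟨j, hj⟩ : ∃ j : ℕ, n = n0 + j := ⟨(n - n0).toNat, by omega⟩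
          have hj1 : 1 ≤ j := by omega
          have hjt : (n - n0).toNat = j := by omega
          rw [hjt, hj]
          have h1 := c_ratio n0 j k hk hj1
          have h2 : ‖y (n0 + j + k)‖ ≤ ‖y (n0 + k)‖ := hdom _ (by omega)
          calc ‖x (n0 + j)‖ * ‖y (n0 + j + k)‖ * c (n0 + j) k
              ≤ 1 * ‖y (n0 + k)‖ *
                (c n0 k * (s ^ (-(2 * ((k:ℤ) - 2 * |n0| - 1))) * (1 / 2) ^ j)) := by
                apply mul_le_mul _ h1 (c_pos _ _).le (by positivity)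
                exact mul_le_mul (hxn _) h2 (norm_nonneg _) zero_le_one
            _ = C * (1 / 2) ^ j := by rw [hC]; ring
      have h3 := tsum_of_norm_bounded (hasSum_geom n0 C) hbd
      have h4 : ‖f x y k n0‖ ≤ C := by
        have : f x y k n0 = -∑' n, (if n = n0 then 0 else f x y k n) := by
          linear_combination h0
        rw [this, norm_neg]
        exact h3
      rw [hfn0, hC] at h4
      have h5 : ‖x n0‖ * (‖y (n0 + k)‖ * c n0 k)
          ≤ s ^ (-(2 * ((k:ℤ) - 2 * |n0| - 1))) * (‖y (n0 + k)‖ * c n0 k) := by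
        calc _ = ‖x n0‖ * ‖y (n0 + k)‖ * c n0 k := by ring
          _ ≤ _ := h4
          _ = _ := by ring
      have h6 := le_of_mul_le_mul_right h5 (mul_pos hyk (c_pos _ _))
      linarith
    · have h7 : ∀ n : ℤ, (if n = n0 then 0 else f x y k n) = 0 := by
        intro n
        rcases lt_trichotomy n n0 with h | h | h
        · rw [if_neg h.ne]; simp [f, hlow n h]
        · rw [if_pos h]
        · rw [if_neg h.ne', f, hzero (n + k) (by omega)]; simp
      simp only [h7, tsum_zero, add_zero] at h0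
      rw [h0] at hpos
      simp at hpos
  -- finiteness of level sets of `y`
  have hfin : ∀ ε : ℝ, 0 < ε → {m : ℤ | ε ≤ ‖y m‖}.Finite := by
    intro ε hε
    have h1 := hy.tendsto_cofinite_zero
    have h2 : ∀ᶠ m in cofinite, ‖y m‖ ^ 2 < ε ^ 2 := (tendsto_order.1 h1).2 _ (by positivity)
    rw [eventually_cofinite] at h2
    refine h2.subset fun m hm => ?_
    simp only [Set.mem_ofPred_eq, not_lt] at hm ⊢
    exact pow_le_pow_left₀ hε.le hm 2
  by_contra hne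
  -- threshold
  obtain ⟨k1, hk1⟩ : ∃ k1 : ℕ, ∀ k : ℕ, k1 ≤ k →
      (2 * |n0| + 1 ≤ (k:ℤ) ∧ s ^ (-(2 * ((k:ℤ) - 2 * |n0| - 1))) < ‖x n0‖) := by
    obtain ⟨q, hq⟩ := exists_pow_lt_of_lt_one (norm_pos_iff.2 hn0) (by norm_num : (1 / 2 : ℝ) < 1)
    refine ⟨(2 * |n0| + 1).toNat + q, fun k hk => ?_⟩
    have h1 : (2 * |n0| + 1) + q ≤ (k:ℤ) := by
      have := abs_nonneg n0
      omega
    refine ⟨by omega, lt_of_le_of_lt ?_ hq⟩
    have h12 : (1 / 2 : ℝ) ^ q = s ^ (-(2 * (q : ℤ))) := by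
      rw [zpow_neg, zpow_mul]
      have : s ^ (2:ℤ) = 2 := by exact_mod_cast s_sq
      rw [this]
      simp
    rw [h12]
    apply zpow_le_zpow_right₀ one_le_s
    omega
  by_cases hb : ∃ m1 : ℤ, n0 + k1 ≤ m1 ∧ y m1 ≠ 0
  · obtain ⟨m1, hm1, hne1⟩ := hb
    have hpos := norm_pos_iff.2 hne1
    obtain ⟨m2, hm2, hmax⟩ := ((hfin _ hpos).inter_of_left {m : ℤ | m1 ≤ m}).exists_maximal
      ⟨m1, by simp⟩ |> fun ⟨a, ha⟩ => (⟨a, ha.1, fun b hb hab => ha.2 hb hab⟩ :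
        ∃ a, a ∈ {m | ‖y m1‖ ≤ ‖y m‖} ∩ {m | m1 ≤ m} ∧
          ∀ b, b ∈ {m | ‖y m1‖ ≤ ‖y m‖} ∩ {m | m1 ≤ m} → a ≤ b → b ≤ a)
    simp only [Set.mem_inter_iff, Set.mem_ofPred_eq] at hm2 hmax
    obtain ⟨k, hk⟩ : ∃ k : ℕ, m2 = n0 + k := ⟨(m2 - n0).toNat, by omega⟩
    have h1 : y (n0 + k) = 0 := by
      refine dom k ?_ (Or.inl (hk1 k (by omega)))
      intro m' hm'
      by_contra hcon
      push Not at hcon
      rw [← hk] at hcon hm'
      have := hmax m' ⟨hm2.1.trans hcon.le, by omega⟩ hm'.le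
      omega
    rw [← hk] at h1
    rw [h1, norm_zero] at hm2
    linarith [hm2.1]
  · push Not at hb
    have hfin2 : ({m : ℤ | y m ≠ 0} ∩ {m | n0 ≤ m}).Finite := by
      refine (Set.finite_Icc n0 (n0 + k1)).subset fun m' hm' => ?_
      simp only [Set.mem_inter_iff, Set.mem_ofPred_eq] at hm'
      refine ⟨hm'.2, ?_⟩
      by_contra hcon
      exact hm'.1 (hb m' (by omega))
    obtain ⟨m2, hm2, hmax⟩ := hfin2.exists_maximal ⟨m, hne, hm⟩ |> fun ⟨a, ha⟩ =>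
      (⟨a, ha.1, fun b hb hab => ha.2 hb hab⟩ :
        ∃ a, a ∈ {m : ℤ | y m ≠ 0} ∩ {m | n0 ≤ m} ∧
          ∀ b, b ∈ {m : ℤ | y m ≠ 0} ∩ {m | n0 ≤ m} → a ≤ b → b ≤ a)
    simp only [Set.mem_inter_iff, Set.mem_ofPred_eq] at hm2 hmax
    obtain ⟨k, hk⟩ : ∃ k : ℕ, m2 = n0 + k := ⟨(m2 - n0).toNat, by omega⟩
    have hz : ∀ m' : ℤ, n0 + k < m' → y m' = 0 := by
      intro m' hm'
      by_contra hcon
      have := hmax m' ⟨hcon, by omega⟩ (by omega)
      omega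
    have h1 : y (n0 + k) = 0 :=
      dom k (fun m' hm' => by rw [hz m' hm', norm_zero]; exact norm_nonneg _) (Or.inr hz)
    rw [← hk] at h1
    exact hm2.1 h1

end Pool.Agent.Lib.MP_1e8505_an
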