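import Mathlib

set_option autoImplicit false

noncomputable section

namespace Pool.Agent.Lib.MP_1e8505_an

/-- `√2` -/
def s : ℝ := Real.sqrt 2

lemma s_sq : s ^ 2 = 2 := Real.sq_sqrt (by norm_num)

lemma s_pos : 0 < s := Real.sqrt_pos.2 (by norm_num)

lemma one_le_s : 1 ≤ s := by
  unfold s
  rw [Real.one_le_sqrt]; norm_num

lemma one_lt_s : 1 < s := by
  have h := s_sq
  have h0 := s_pos
  nlinarith

/-- exponent of the weight `β n = s ^ E n` -/
def E (n : ℤ) : ℤ := if 0 ≤ n then -(n * (n - 1)) else n * (n - 1)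

lemma E_nonneg {n : ℤ} (h : 0 ≤ n) : E n = -(n * (n - 1)) := if_pos h

lemma E_nonpos {n : ℤ} (h : n ≤ 0) : E n = n * (n - 1) := by
  unfold E
  split_ifs with h1
  · have : n = 0 := le_antisymm h h1
    simp [this]
  · rfl

lemma E_succ (n : ℤ) : E (n + 1) = E n - 2 * |n| := by
  rcases le_or_gt 0 n with h | h
  · rw [E_nonneg h, E_nonneg (by omega : 0 ≤ n + 1), abs_of_nonneg h]; ring
  · rw [E_nonpos h.le, E_nonpos (by omega : n + 1 ≤ 0), abs_of_neg h]; ring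

lemma E_add_le (n : ℤ) (k : ℕ) : E (n + k) ≤ E n := by
  induction k with
  | zero => simp
  | succ k ih =>
    have h : n + ((k + 1 : ℕ) : ℤ) = (n + k) + 1 := by push_cast; ring
    rw [h, E_succ]
    have := abs_nonneg (n + (k:ℤ))
    omega

/-- coefficient of `W ^ k` from `e n` to `e (n + k)` -/
def c (n : ℤ) (k : ℕ) : ℝ := s ^ (E (n + k) - E n)

lemma c_pos (n : ℤ) (k : ℕ) : 0 < c n k := zpow_pos s_pos _

lemma zpow_le_one {a : ℤ} (h : a ≤ 0) : s ^ a ≤ 1 := by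
  have := zpow_le_zpow_right₀ one_le_s h
  simpa using this

lemma c_le_one (n : ℤ) (k : ℕ) : c n k ≤ 1 :=
  zpow_le_one (by have := E_add_le n k; omega)

lemma c_zero (n : ℤ) : c n 0 = 1 := by simp [c]

lemma two_zpow (n : ℤ) : (2 : ℝ) ^ (-|n|) = s ^ (-(2 * |n|)) := by
  rw [← s_sq, ← zpow_natCast, ← zpow_mul]
  congr 1
  push_cast
  ring

lemma c_succ (n : ℤ) (k : ℕ) : c n (k + 1) = (2 : ℝ) ^ (-|n + k|) * c n k := by
  unfold c
  rw [two_zpow, ← zpow_add₀ s_pos.ne']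
  congr 1
  have h : n + ((k + 1 : ℕ) : ℤ) = (n + k) + 1 := by push_cast; ring
  rw [h, E_succ]
  ring

end Pool.Agent.Lib.MP_1e8505_an
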